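import Pool.Agent.W547.GAL.Main

/-!
# The Galois Lie algebra of surfaces and a motive of Shimura type: linear algebra
-/

open Matrix Finset Module

namespace Pool.Agent.W547.GAW

open Pool.Agent.W544.PG Pool.Agent.W637.PG Pool.Agent.W547.GAL

noncomputable section

/-- pairs of an operator on `T` and an operator on `W` -/
abbrev Du (n w : ℕ) : Type := Matrix (Fin n) (Fin n) ℂ × Matrix (Fin w) (Fin w) ℂ

/-- the commutator with `y` -/
def ad {w : ℕ} (y V : Matrix (Fin w) (Fin w) ℂ) : Matrix (Fin w) (Fin w) ℂ := y * V - V * y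

/-- the bracket -/
def br2 {n w : ℕ} (a b : Du n w) : Du n w :=
  (a.1 * b.1 - b.1 * a.1, a.2 * b.2 - b.2 * a.2)

/-- **The key lemma**, orthonormal coordinates: a Lie algebra of pairs whose projection to `T` is
the sum of the `so(T_i)` and which contains an element `(x, y)`, where `x` is `1`, `0`, `-1` on
pieces of ranks `p_i`, `q_i`, `p_i` of `T_i`, `p_i ≥ 2`, and `y` acts on the second components
with the eigenvalues `1`, `0`, `-1`, contains the sum of the `so(T_i)`. -/
theorem keyAbs2 {n w r : ℕ} (c : Fin n → Fin r) (p q : Fin r → ℕ)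
    (x : Matrix (Fin n) (Fin n) ℂ) (hx : BD c x) (hsk : xᵀ = -x) (hcube : x * x * x = x)
    (htr : ∀ i, ∑ a with c a = i, (x * x) a a = 2 * (p i : ℂ))
    (hrk : ∀ i, (univ.filter fun a => c a = i).card = 2 * p i + q i)
    (hp2 : ∀ i, 2 ≤ p i) (hm : ∀ i, 2 * p i + q i ≠ 4)
    (y : Matrix (Fin w) (Fin w) ℂ) (M : Submodule ℂ (Du n w))
    (hy : ∀ a ∈ M, ad y (ad y (ad y a.2)) = ad y a.2)
    (hlie : ∀ a ∈ M, ∀ b ∈ M, br2 a b ∈ M) (hX : (x, y) ∈ M)
    (hfull : ∀ Z : Matrix (Fin n) (Fin n) ℂ, Zᵀ = -Z → BD c Z → ∃ V, (Z, V) ∈ M)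
    (Z : Matrix (Fin n) (Fin n) ℂ) (hZ : Zᵀ = -Z) (hZc : BD c Z) : (Z, 0) ∈ M := by
  have hbr : ∀ Z Z' : Matrix (Fin n) (Fin n) ℂ, Zᵀ = -Z → BD c Z → (Z', 0) ∈ M →
      (Z * Z' - Z' * Z, 0) ∈ M := by
    intro Z Z' h1 h2 h3
    obtain ⟨V, h4⟩ := hfull Z h1 h2
    have h5 := hlie _ h4 _ h3
    unfold br2 at h5
    simpa using h5
  choose e he using fun i => exists_enum c i (hrk i)
  have hblock : ∀ (i : Fin r) (z : Matrix (Fin (2 * p i + q i)) (Fin (2 * p i + q i)) ℂ),
      zᵀ = -z → (sel (e i) * z * (sel (e i))ᵀ, 0) ∈ M := by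
    intro i z hz
    let J : Submodule ℂ (Matrix (Fin (2 * p i + q i)) (Fin (2 * p i + q i)) ℂ) :=
      { carrier := {z | zᵀ = -z ∧ (sel (e i) * z * (sel (e i))ᵀ, 0) ∈ M}
        zero_mem' := by
          refine ⟨by simp, ?_⟩
          rw [Matrix.mul_zero, Matrix.zero_mul]
          exact M.zero_mem
        add_mem' := by
          rintro y z ⟨hy1, hy2⟩ ⟨hz1, hz2⟩
          refine ⟨?_, ?_⟩
          · rw [Matrix.transpose_add, hy1, hz1, neg_add]
          · rw [Matrix.mul_add, Matrix.add_mul]
            have := M.add_mem hy2 hz2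
            simpa using this
        smul_mem' := by
          rintro z y ⟨hy1, hy2⟩
          refine ⟨?_, ?_⟩
          · rw [Matrix.transpose_smul, hy1, smul_neg]
          · rw [Matrix.mul_smul, Matrix.smul_mul]
            have := M.smul_mem z hy2
            simpa using this }
    have hJmem : ∀ y, y ∈ J ↔ (yᵀ = -y ∧ (sel (e i) * y * (sel (e i))ᵀ, 0) ∈ M) :=
      fun y => Iff.rfl
    have hsel : ∀ A : Matrix (Fin (2 * p i + q i)) (Fin (2 * p i + q i)) ℂ, Aᵀ = -A →
        (sel (e i) * A * (sel (e i))ᵀ)ᵀ = -(sel (e i) * A * (sel (e i))ᵀ) := by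
      intro A hA
      rw [Matrix.transpose_mul, Matrix.transpose_mul, Matrix.transpose_transpose, hA,
        Matrix.neg_mul, Matrix.mul_neg, ← Matrix.mul_assoc]
    have h1 : z ∈ J := by
      refine W589.PG.Sim.sim _ (by have := hp2 i; omega) (hm i) J (fun y hy => hy.1) ?_ ?_ z hz
      · intro Z hZ y hy
        rw [hJmem] at hy ⊢
        refine ⟨?_, ?_⟩
        · unfold br
          rw [Matrix.transpose_sub, Matrix.transpose_mul, Matrix.transpose_mul, hZ, hy.1,
            neg_mul_neg, neg_mul_neg]
          abel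
        · have h2 := hbr _ _ (hsel Z hZ) (sel_BD (he i) Z) hy.2
          have h3 : ∀ A B : Matrix (Fin (2 * p i + q i)) (Fin (2 * p i + q i)) ℂ,
              sel (e i) * A * (sel (e i))ᵀ * (sel (e i) * B * (sel (e i))ᵀ) =
              sel (e i) * (A * B) * (sel (e i))ᵀ := by
            intro A B
            calc sel (e i) * A * (sel (e i))ᵀ * (sel (e i) * B * (sel (e i))ᵀ) =
                sel (e i) * A * ((sel (e i))ᵀ * sel (e i)) * B * (sel (e i))ᵀ := by
                  simp only [Matrix.mul_assoc]
              _ = _ := by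
                  rw [sel_T_sel _ (he i).inj, Matrix.mul_one]
                  simp only [Matrix.mul_assoc]
          rw [h3, h3, ← Matrix.sub_mul, ← Matrix.mul_sub] at h2
          exact h2
      · obtain ⟨Z0, hZ0, hZs, hZb, hZx⟩ := eg1 c i (p i) x hx hsk hcube (htr i) (hp2 i)
        have hZc : BD c Z0 := by
          intro a a' haa'
          by_contra h
          obtain ⟨h1, h2⟩ := hZb a a' h
          exact haa' (by rw [h1, h2])
        obtain ⟨V, hV⟩ := hfull Z0 hZs hZc
        have h2 := hlie _ hX _ hV
        have h3 := hlie _ hX _ h2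
        have h4 := hlie _ hX _ h3
        have h5 := M.sub_mem h4 h2
        have h6 : br2 (x, y) (br2 (x, y) (br2 (x, y) (Z0, V))) -
            br2 (x, y) (Z0, V) = ((6 : ℂ) • Z0, 0) := by
          unfold br2
          simp only
          refine Prod.ext ?_ ?_
          · change x * (x * (x * Z0 - Z0 * x) - (x * Z0 - Z0 * x) * x) -
              (x * (x * Z0 - Z0 * x) - (x * Z0 - Z0 * x) * x) * x - (x * Z0 - Z0 * x) = _
            have a1 : x * ((2 : ℂ) • Z0) - ((2 : ℂ) • Z0) * x = (4 : ℂ) • Z0 := by
              rw [Matrix.mul_smul, Matrix.smul_mul, ← smul_sub, hZx, smul_smul]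
              norm_num
            have a2 : x * ((4 : ℂ) • Z0) - ((4 : ℂ) • Z0) * x = (8 : ℂ) • Z0 := by
              rw [Matrix.mul_smul, Matrix.smul_mul, ← smul_sub, hZx, smul_smul]
              norm_num
            rw [hZx, a1, a2]
            change (8 : ℂ) • Z0 - (2 : ℂ) • Z0 = (6 : ℂ) • Z0
            module
          · change ad y (ad y (ad y V)) - ad y V = 0
            rw [hy _ hV, sub_self]
        rw [h6] at h5
        have h8 := M.smul_mem (1 / 6 : ℂ) h5
        have h8' : (Z0, (0 : Matrix (Fin w) (Fin w) ℂ)) ∈ M := by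
          have h9 : (1 / 6 : ℂ) • (((6 : ℂ) • Z0, 0) : Du n w) = (Z0, 0) := by
            refine Prod.ext ?_ ?_
            · change (1 / 6 : ℂ) • (6 : ℂ) • Z0 = Z0
              rw [smul_smul]
              norm_num
            · change (1 / 6 : ℂ) • (0 : Matrix (Fin w) (Fin w) ℂ) = 0
              rw [smul_zero]
          rwa [h9] at h8
        intro hbot
        have hmem : Z0.submatrix (e i) (e i) ∈ J := by
          rw [hJmem]
          refine ⟨?_, ?_⟩
          · ext a b
            have := congrFun (congrFun hZs (e i a)) (e i b)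
            exact this
          · have h9 : sel (e i) * Z0.submatrix (e i) (e i) * (sel (e i))ᵀ = Z0 := by
              rw [← (he i).mul_sel hZc, Matrix.mul_assoc]
              ext a a'
              have h11 : Z0 a a' = (Z0 * (∑ i, sel (e i) * (sel (e i))ᵀ)) a a' := by
                rw [sel_sum (fun i => he i), Matrix.mul_one]
              rw [h11, Matrix.mul_sum, Matrix.sum_apply, Finset.sum_eq_single i]
              · intro j _ hj
                rw [Matrix.mul_apply]
                refine Finset.sum_eq_zero fun l _ => ?_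
                by_cases hl : c l = i
                · have h12 : (sel (e j) * (sel (e j))ᵀ) l a' = 0 := by
                    rw [Matrix.mul_apply]
                    refine Finset.sum_eq_zero fun l' _ => ?_
                    rw [sel, Matrix.of_apply, if_neg, zero_mul]
                    intro h
                    exact hj (by rw [← hl, ← h, (he j).col])
                  rw [h12, mul_zero]
                · have h12 : Z0 a l = 0 := by
                    by_contra h
                    exact hl (hZb a l h).2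
                  rw [h12, zero_mul]
              · simp
            rw [h9]
            exact h8'
        rw [hbot, Submodule.mem_bot] at hmem
        apply hZ0
        ext a a'
        by_contra h
        obtain ⟨h1, h2⟩ := hZb a a' h
        obtain ⟨j, rfl⟩ := (he i).surj a h1
        obtain ⟨j', rfl⟩ := (he i).surj a' h2
        exact h (congrFun (congrFun hmem j) j')
    exact h1.2
  rw [sel_dec (fun i => he i) hZc]
  have h1 : ((∑ i, sel (e i) * Z.submatrix (e i) (e i) * (sel (e i))ᵀ,
      (0 : Matrix (Fin w) (Fin w) ℂ)) : Du n w) =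
      ∑ i, (sel (e i) * Z.submatrix (e i) (e i) * (sel (e i))ᵀ,
        (0 : Matrix (Fin w) (Fin w) ℂ)) := by
    refine Prod.ext ?_ ?_
    · rw [Prod.fst_sum]
    · rw [Prod.snd_sum]
      simp
  rw [h1]
  refine Submodule.sum_mem _ fun i _ => ?_
  apply hblock
  ext a b
  exact congrFun (congrFun hZ (e i a)) (e i b)

end

end Pool.Agent.W547.GAW
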