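import Pool.Agent.W547.GAW.Key

/-!
# Tate classes on the product of surfaces and a motive of Shimura type
-/

open Matrix Finset Module

namespace Pool.Agent.W547.GAW

open Pool.Agent.W544.PG Pool.Agent.W544.FF Pool.Agent.W547.GAL

noncomputable section

section defs

variable {K : Type} [Field K] {Γ : Type} [Group Γ] [TopologicalSpace Γ] {n : ℕ}

/-- A class `t` in `H(X) ⊗ W`, `X` a product of surfaces, `W` a representation of `Γ` (a form with
`m` variables in `K^s ⊕ T` and values in `W`), is a Tate class: it is invariant under an open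
subgroup. -/
def IsTateW (T : GR K Γ n) {w s m : ℕ} (ρ : Γ → Matrix (Fin w) (Fin w) K)
    (t : (Fin m → Fin s ⊕ Fin n) → Fin w → K) : Prop :=
  ∃ U : Subgroup Γ, IsOpen (U : Set Γ) ∧ ∀ g ∈ U, ∀ J L,
    pull (T.ρS s g) (fun J => t J L) J = (ρ g *ᵥ t J) L

/-- A representation `W` of `Γ` of Shimura type, together with the surfaces of `T`: the Lie algebra
`M` of the image of `Γ` in the automorphisms of `T ⊕ W`, and the Sen operator `(x, y)`, which acts
on the operators of `W` in this Lie algebra with the eigenvalues `1`, `0`, `-1` only. -/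
structure GW (T : GR K Γ n) (w : ℕ) where
  /-- the representation -/
  ρ : Γ →* Matrix (Fin w) (Fin w) K
  /-- the Lie algebra of the image in the automorphisms of `T ⊕ W` -/
  M : Submodule K (Matrix (Fin n) (Fin n) K × Matrix (Fin w) (Fin w) K)
  lie : ∀ a ∈ M, ∀ b ∈ M, (a.1 * b.1 - b.1 * a.1, a.2 * b.2 - b.2 * a.2) ∈ M
  proj : ∀ z ∈ T.L, ∃ a ∈ M, a.1 = z
  tate : ∀ (s m : ℕ) (t : (Fin m → Fin s ⊕ Fin n) → Fin w → K),
    IsTateW T ρ t ↔
    ∀ a ∈ M, ∀ J L, actK (fromBlocks 0 0 0 a.1) (fun J => t J L) J = (a.2 *ᵥ t J) L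
  /-- the Sen operator on `W` -/
  y : Matrix (Fin w) (Fin w) ℂ
  sen : ((T.x, y) : Matrix (Fin n) (Fin n) ℂ × Matrix (Fin w) (Fin w) ℂ) ∈
    Submodule.span ℂ {Y | ∃ a ∈ M, Y = (a.1.map T.ι, a.2.map T.ι)}
  adj : ∀ a ∈ M, ad y (ad y (ad y (a.2.map T.ι))) = ad y (a.2.map T.ι)

/-- vectors of `W` invariant under an open subgroup: the Tate classes in `W` -/
def GW.IsTateV {T : GR K Γ n} {w : ℕ} (G : GW T w) (v : Fin w → K) : Prop :=
  ∃ U : Subgroup Γ, IsOpen (U : Set Γ) ∧ ∀ g ∈ U, G.ρ g *ᵥ v = v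

/-- the complexification of `M` -/
def GW.MC {T : GR K Γ n} {w : ℕ} (G : GW T w) : Submodule ℂ (Du n w) :=
  Submodule.span ℂ {Y | ∃ a ∈ G.M, Y = (a.1.map T.ι, a.2.map T.ι)}

/-- Sums of products of classes in `algE` (combinations of products of algebraic classes, of
transcendental parts of diagonals and of determinants of the `T_i`, `i ∈ D`) on the product of the
surfaces and of Tate classes in `W`. -/
def GW.tateW {T : GR K Γ n} {w r s m : ℕ} (G : GW T w) (c : Fin n → Fin r) (d : Fin s → Fin r)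
    (a : Fin m → Fin r) (D : Finset (Fin r)) :
    Submodule K ((Fin m → Fin s ⊕ Fin n) → Fin w → K) :=
  Submodule.span K {f | ∃ α ∈ algE T.Q c d a D, ∃ v : Fin w → K, G.IsTateV v ∧
    f = fun J L => α J * v L}

end defs

variable {K : Type} [Field K] {Γ : Type} [Group Γ] [TopologicalSpace Γ] {n r w s m k : ℕ}
  {T : GR K Γ n} {c : Fin n → Fin r} {p q : Fin r → ℕ}

theorem ad_add {w : ℕ} (y V V' : Matrix (Fin w) (Fin w) ℂ) : ad y (V + V') = ad y V + ad y V' := by
  unfold ad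
  rw [Matrix.mul_add, Matrix.add_mul]
  abel

theorem ad_smul {w : ℕ} (y : Matrix (Fin w) (Fin w) ℂ) (z : ℂ) (V : Matrix (Fin w) (Fin w) ℂ) :
    ad y (z • V) = z • ad y V := by
  unfold ad
  rw [Matrix.mul_smul, Matrix.smul_mul, smul_sub]

theorem br2_add_left (a b z : Du n w) : br2 (a + b) z = br2 a z + br2 b z := by
  unfold br2
  refine Prod.ext ?_ ?_
  · change (a.1 + b.1) * z.1 - z.1 * (a.1 + b.1) =
      (a.1 * z.1 - z.1 * a.1) + (b.1 * z.1 - z.1 * b.1)
    rw [Matrix.add_mul, Matrix.mul_add]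
    abel
  · change (a.2 + b.2) * z.2 - z.2 * (a.2 + b.2) =
      (a.2 * z.2 - z.2 * a.2) + (b.2 * z.2 - z.2 * b.2)
    rw [Matrix.add_mul, Matrix.mul_add]
    abel

theorem br2_neg (a b : Du n w) : br2 a b = -br2 b a := by
  unfold br2
  refine Prod.ext ?_ ?_
  · change a.1 * b.1 - b.1 * a.1 = -(b.1 * a.1 - a.1 * b.1)
    abel
  · change a.2 * b.2 - b.2 * a.2 = -(b.2 * a.2 - a.2 * b.2)
    abel

theorem br2_smul_left (x : ℂ) (a z : Du n w) : br2 (x • a) z = x • br2 a z := by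
  unfold br2
  refine Prod.ext ?_ ?_
  · change (x • a.1) * z.1 - z.1 * (x • a.1) = x • (a.1 * z.1 - z.1 * a.1)
    rw [Matrix.smul_mul, Matrix.mul_smul, smul_sub]
  · change (x • a.2) * z.2 - z.2 * (x • a.2) = x • (a.2 * z.2 - z.2 * a.2)
    rw [Matrix.smul_mul, Matrix.mul_smul, smul_sub]

theorem br2_zero_left (z : Du n w) : br2 0 z = 0 := by
  have h := br2_smul_left (n := n) (w := w) 0 0 z
  rwa [zero_smul, zero_smul] at h

theorem MC_lie (G : GW T w) : ∀ a ∈ G.MC, ∀ b ∈ G.MC, br2 a b ∈ G.MC := by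
  have h1 : ∀ a ∈ G.MC, ∀ b ∈ G.M, br2 a (b.1.map T.ι, b.2.map T.ι) ∈ G.MC := by
    intro a ha b hb
    unfold GW.MC at ha
    induction ha using Submodule.span_induction with
    | mem a h =>
      obtain ⟨z, hz, rfl⟩ := h
      refine Submodule.subset_span ⟨_, G.lie z hz b hb, ?_⟩
      unfold br2
      refine Prod.ext ?_ ?_
      · change z.1.map T.ι * b.1.map T.ι - b.1.map T.ι * z.1.map T.ι =
          (z.1 * b.1 - b.1 * z.1).map T.ι
        rw [← map_mulR, ← map_mulR]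
        ext i j
        rw [Matrix.sub_apply, Matrix.map_apply, Matrix.map_apply, Matrix.map_apply,
          Matrix.sub_apply, map_sub]
      · change z.2.map T.ι * b.2.map T.ι - b.2.map T.ι * z.2.map T.ι =
          (z.2 * b.2 - b.2 * z.2).map T.ι
        rw [← map_mulR, ← map_mulR]
        ext i j
        rw [Matrix.sub_apply, Matrix.map_apply, Matrix.map_apply, Matrix.map_apply,
          Matrix.sub_apply, map_sub]
    | zero =>
      rw [br2_zero_left]
      exact G.MC.zero_mem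
    | add a a' _ _ h h' =>
      rw [br2_add_left]
      exact G.MC.add_mem h h'
    | smul x a _ h =>
      rw [br2_smul_left]
      exact G.MC.smul_mem x h
  intro a ha b hb
  unfold GW.MC at hb
  induction hb using Submodule.span_induction with
  | mem b h =>
    obtain ⟨z, hz, rfl⟩ := h
    exact h1 a ha z hz
  | zero =>
    rw [br2_neg, br2_zero_left, neg_zero]
    exact G.MC.zero_mem
  | add b b' _ _ h h' =>
    rw [br2_neg, br2_add_left, neg_add, ← br2_neg, ← br2_neg]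
    exact G.MC.add_mem h h'
  | smul x b _ h =>
    rw [br2_neg, br2_smul_left, ← smul_neg, ← br2_neg]
    exact G.MC.smul_mem x h

/-- every element of the Lie algebra of `T` lifts -/
theorem MC_lift (G : GW T w) : ∀ Z ∈ T.LC, ∃ V, ((Z, V) : Du n w) ∈ G.MC := by
  intro Z hZ
  unfold GR.LC at hZ
  induction hZ using Submodule.span_induction with
  | mem Z h =>
    obtain ⟨z, hz, rfl⟩ := h
    obtain ⟨a, ha, rfl⟩ := G.proj z hz
    exact ⟨a.2.map T.ι, Submodule.subset_span ⟨a, ha, rfl⟩⟩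
  | zero => exact ⟨0, G.MC.zero_mem⟩
  | add a b _ _ ha hb =>
    obtain ⟨V, h1⟩ := ha
    obtain ⟨V', h2⟩ := hb
    exact ⟨V + V', G.MC.add_mem h1 h2⟩
  | smul x a _ ha =>
    obtain ⟨V, h1⟩ := ha
    exact ⟨x • V, G.MC.smul_mem x h1⟩

/-- the adjoint condition on the complexification -/
theorem MC_adj (G : GW T w) : ∀ a ∈ G.MC, ad G.y (ad G.y (ad G.y a.2)) = ad G.y a.2 := by
  intro a ha
  unfold GW.MC at ha
  induction ha using Submodule.span_induction with
  | mem a h =>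
    obtain ⟨z, hz, rfl⟩ := h
    exact G.adj z hz
  | zero =>
    change ad G.y (ad G.y (ad G.y 0)) = ad G.y 0
    simp [ad]
  | add a b _ _ ha hb =>
    change ad G.y (ad G.y (ad G.y (a.2 + b.2))) = ad G.y (a.2 + b.2)
    rw [ad_add, ad_add, ad_add, ha, hb]
  | smul x a _ ha =>
    change ad G.y (ad G.y (ad G.y (x • a.2))) = ad G.y (x • a.2)
    rw [ad_smul, ad_smul, ad_smul, ha]

/-- conjugation of the first component -/
def cT2 (g g' : Matrix (Fin n) (Fin n) ℂ) : Du n w →ₗ[ℂ] Du n w where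
  toFun z := (g * z.1 * g', z.2)
  map_add' a b := by
    refine Prod.ext ?_ rfl
    change g * (a.1 + b.1) * g' = g * a.1 * g' + g * b.1 * g'
    rw [Matrix.mul_add, Matrix.add_mul]
  map_smul' x a := by
    refine Prod.ext ?_ rfl
    change g * (x • a.1) * g' = x • (g * a.1 * g')
    rw [Matrix.mul_smul, Matrix.smul_mul]

/-- **The key lemma**: the joint Lie algebra contains the sum of the `so(T_i)`. -/
theorem key2 (G : GW T w) (hT : T.Big c p q) (hp2 : ∀ i, 2 ≤ p i)
    (Z : Matrix (Fin n) (Fin n) ℂ) (hZ : Zᵀ * T.Q.map T.ι + T.Q.map T.ι * Z = 0)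
    (hZc : BD c Z) : ((Z, 0) : Du n w) ∈ G.MC := by
  have hxLC : T.x ∈ T.LC := T.sen
  obtain ⟨hxs, hxb⟩ := (LC_iff hT T.x).1 hxLC
  obtain ⟨u, hub, huQ, -, -⟩ := id hT.red
  have e1 : u⁻¹ * u = 1 := by
    have h1 : (uᵀ * T.Q.map T.ι) * u = 1 := huQ
    have h2 : u⁻¹ = uᵀ * T.Q.map T.ι := Matrix.inv_eq_left_inv h1
    rw [h2]
    exact h1
  have e2 : u * u⁻¹ = 1 := mul_eq_one_comm.1 e1
  have hui : BD c u⁻¹ := W918.PG.bd_inv hub (by
    have h1 := congrArg Matrix.det e2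
    rw [Matrix.det_mul, Matrix.det_one] at h1
    exact IsUnit.of_mul_eq_one _ h1)
  have fwd : ∀ Z : Matrix (Fin n) (Fin n) ℂ, Zᵀ * T.Q.map T.ι + T.Q.map T.ι * Z = 0 →
      (u⁻¹ * Z * u)ᵀ = -(u⁻¹ * Z * u) := by
    intro Z hZ
    have h1 := cc_skew e2 _ Z hZ
    rw [huQ, Matrix.mul_one, Matrix.one_mul] at h1
    exact eq_neg_of_add_eq_zero_left h1
  have bwd : ∀ Z : Matrix (Fin n) (Fin n) ℂ, Zᵀ = -Z →
      (u * Z * u⁻¹)ᵀ * T.Q.map T.ι + T.Q.map T.ι * (u * Z * u⁻¹) = 0 := by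
    intro Z hZ
    have t1 : (u⁻¹)ᵀ * uᵀ = 1 := by rw [← Matrix.transpose_mul, e2, Matrix.transpose_one]
    have t3 : uᵀ * T.Q.map T.ι = u⁻¹ := by
      have h1 : (uᵀ * T.Q.map T.ι) * u = 1 := huQ
      exact (Matrix.inv_eq_left_inv h1).symm
    have t4 : T.Q.map T.ι * u = (u⁻¹)ᵀ := by
      calc T.Q.map T.ι * u = (u⁻¹)ᵀ * uᵀ * (T.Q.map T.ι * u) := by rw [t1, Matrix.one_mul]
        _ = (u⁻¹)ᵀ * (uᵀ * T.Q.map T.ι * u) := by simp only [Matrix.mul_assoc]
        _ = (u⁻¹)ᵀ := by rw [huQ, Matrix.mul_one]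
    rw [Matrix.transpose_mul, Matrix.transpose_mul, hZ]
    have h1 : (u⁻¹)ᵀ * (-Z * uᵀ) * T.Q.map T.ι = -((u⁻¹)ᵀ * Z * (uᵀ * T.Q.map T.ι)) := by
      simp only [Matrix.mul_assoc, Matrix.neg_mul, Matrix.mul_neg]
    have h2 : T.Q.map T.ι * (u * Z * u⁻¹) = (T.Q.map T.ι * u) * Z * u⁻¹ := by
      simp only [Matrix.mul_assoc]
    rw [h1, h2, t3, t4, neg_add_cancel]
  have mem : ∀ z : Du n w, z ∈ G.MC.comap (cT2 u u⁻¹) ↔
      ((u * z.1 * u⁻¹, z.2) : Du n w) ∈ G.MC := fun z => Iff.rfl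
  have key1 := keyAbs2 c p q (u⁻¹ * T.x * u) ((hui.mul hxb).mul hub) (fwd _ hxs)
    (by rw [cc_mul' e2, cc_mul' e2, T.cube])
    (fun i => by rw [cc_mul' e2, block_trace hub e2]; exact hT.tr i) hT.rk hp2
    (fun i => by
      rcases hT.num i with ⟨h, _⟩ | ⟨_, h⟩
      · have := hp2 i
        omega
      · have hlt : 2 * p i < q i := by
          by_contra h'
          rw [Nat.sub_eq_zero_of_le (not_lt.1 h'), zero_mul] at h
          omega
        have := hp2 i
        omega) G.y (G.MC.comap (cT2 u u⁻¹)) (fun a ha => MC_adj G (u * a.1 * u⁻¹, a.2) ((mem a).1 ha)) ?_ ?_ ?_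
    (u⁻¹ * Z * u) (fwd Z hZ) ((hui.mul hZc).mul hub)
  · rw [mem] at key1
    simp only at key1
    rwa [cc_back e2] at key1
  · intro a ha b hb
    rw [mem] at ha hb ⊢
    have h1 := MC_lie G _ ha _ hb
    unfold br2 at h1 ⊢
    simp only at h1 ⊢
    rw [cc_mul e1, cc_mul e1, ← Matrix.sub_mul, ← Matrix.mul_sub] at h1
    exact h1
  · rw [mem]
    simp only
    rw [cc_back e2]
    exact G.sen
  · intro Z' hZ' hZc'
    obtain ⟨V, h1⟩ := MC_lift G (u * Z' * u⁻¹)
      ((LC_iff hT _).2 ⟨bwd Z' hZ', (hub.mul hZc').mul hui⟩)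
    exact ⟨V, h1⟩

/-- the action of the complexified Lie algebra on a Tate class -/
theorem MC_act (G : GW T w) (t : (Fin m → Fin s ⊕ Fin n) → Fin w → K)
    (ht : IsTateW T G.ρ t) : ∀ a ∈ G.MC, ∀ J L,
    act (fromBlocks 0 0 0 a.1) (fun J => T.ι (t J L)) J = (a.2 *ᵥ fun L => T.ι (t J L)) L := by
  have h0 := (G.tate s m t).1 ht
  intro a ha
  unfold GW.MC at ha
  induction ha using Submodule.span_induction with
  | mem a h =>
    obtain ⟨z, hz, rfl⟩ := h
    intro J L
    have h1 := congrArg T.ι (h0 z hz J L)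
    rw [ι_actK, fb_map] at h1
    rw [h1]
    simp only [Matrix.mulVec, dotProduct, map_sum, map_mul, Matrix.map_apply]
  | zero =>
    intro J L
    change act (fromBlocks 0 0 0 0) (fun J => T.ι (t J L)) J =
      ((0 : Matrix (Fin w) (Fin w) ℂ) *ᵥ fun L => T.ι (t J L)) L
    rw [Matrix.fromBlocks_zero]
    simp [act]
  | add a b _ _ ha hb =>
    intro J L
    have h1 := ha J L
    have h2 := hb J L
    have h3 : (fromBlocks 0 0 0 (a + b).1 : Matrix (Fin s ⊕ Fin n) (Fin s ⊕ Fin n) ℂ) =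
        fromBlocks 0 0 0 a.1 + fromBlocks 0 0 0 b.1 := by
      rw [Matrix.fromBlocks_add]
      simp
    have h4 : ∀ {κ : Type} [Fintype κ] [DecidableEq κ] {m : ℕ} (A B : Matrix κ κ ℂ)
        (f : (Fin m → κ) → ℂ) (J : Fin m → κ), act (A + B) f J = act A f J + act B f J := by
      intro κ _ _ m A B f J
      simp only [act, Matrix.add_apply, add_mul, Finset.sum_add_distrib]
    rw [h3, h4]
    change _ = ((a.2 + b.2) *ᵥ fun L => T.ι (t J L)) L
    rw [Matrix.add_mulVec, Pi.add_apply, h1, h2]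
  | smul x a _ ha =>
    intro J L
    have h1 := ha J L
    have h3 : (fromBlocks 0 0 0 (x • a).1 : Matrix (Fin s ⊕ Fin n) (Fin s ⊕ Fin n) ℂ) =
        x • fromBlocks 0 0 0 a.1 := by
      rw [Matrix.fromBlocks_smul]
      simp
    have h4 : ∀ {κ : Type} [Fintype κ] [DecidableEq κ] {m : ℕ} (A : Matrix κ κ ℂ)
        (f : (Fin m → κ) → ℂ) (J : Fin m → κ), act (x • A) f J = x * act A f J := by
      intro κ _ _ m A f J
      simp only [act, Matrix.smul_apply, smul_eq_mul, mul_assoc, ← Finset.mul_sum]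
    rw [h3, h4]
    change _ = ((x • a.2) *ᵥ fun L => T.ι (t J L)) L
    rw [Matrix.smul_mulVec, Pi.smul_apply, smul_eq_mul, h1]

/-- **Tate classes in the tensor product of the cohomology of a product of symmetric powers of
surfaces and a representation of Shimura type.** -/
theorem main (G : GW T w) (hT : T.Big c p q) (hp2 : ∀ i, 2 ≤ p i) (d : Fin s → Fin r)
    (a : Fin m → Fin r) (f : Fin m → Fin k) (hf : ∀ j j', f j = f j' → a j = a j')
    (D : Finset (Fin r)) (t : (Fin m → Fin s ⊕ Fin n) → Fin w → K)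
    (hta : ∀ J L, t J L ≠ 0 → ∀ j, Sum.elim d c (J j) = a j)
    (hsym : ∀ π : Equiv.Perm (Fin m), (∀ j, f (π j) = f j) →
      ∀ J, t (fun j => J (π j)) = t J)
    (htr : ∀ J L, t J L ≠ 0 → ∀ i, i ∉ D →
      (univ.filter fun y : Fin k => ∃ j b, f j = y ∧ J j = Sum.inr b ∧ c b = i).card <
        2 * p i + q i) :
    IsTateW T G.ρ t ↔ t ∈ G.tateW c d a D := by
  have : CharZero K := (RingHom.charZero_iff T.ι.injective).2 inferInstance
  constructor
  · intro ht
    have h0 := MC_act G t ht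
    have hU : ∀ L, (fun J => t J L) ∈ algE T.Q c d a D := by
      intro L
      obtain ⟨u, hub, huQ, -⟩ := id hT.red
      have h1 : (fun J => t J L) ∈ algD T.Q c d a := by
        refine hdkF K T.ι n r s m c d a T.Q u hT.bQ hub huQ _ (fun Z hZ hZc => ?_)
          (fun J hJ => hta J L hJ)
        have h2 := h0 _ (key2 G hT hp2 Z hZ hZc)
        funext J
        have h3 := h2 J L
        simp only at h3
        rw [Matrix.zero_mulVec] at h3
        exact h3
      exact gsyF K n r s m k c d a f T.Q D hT.bQ T.symm hf _ (algD_le _ _ _ _ h1)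
        (fun π hπ J => congrFun (hsym π hπ J) L)
        (fun J hJ i hi => by
          rw [hT.rk i]
          exact htr J L hJ i hi)
    obtain ⟨U₀, hU₀, hg₀⟩ := ht
    have hI : ∀ L : Fin w, IsTate (T.ρS s) (fun J => t J L) := fun L =>
      tate_algE hT d a D _ (hU L)
    choose U₁ hU₁ hg₁ using hI
    obtain ⟨B, hB⟩ : ∃ B : Submodule K (Fin w → K), ∀ v, v ∈ B ↔ G.IsTateV v := by
      refine ⟨⟨⟨⟨{v | G.IsTateV v}, ?_⟩, ?_⟩, ?_⟩, fun v => Iff.rfl⟩
      · rintro β γ ⟨U, hU, hβ⟩ ⟨V, hV, hγ⟩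
        refine ⟨U ⊓ V, hU.inter hV, fun g hg => ?_⟩
        rw [Matrix.mulVec_add, hβ g hg.1, hγ g hg.2]
      · refine ⟨⊤, isOpen_univ, fun g _ => ?_⟩
        rw [Matrix.mulVec_zero]
      · rintro x β ⟨U, hU, hβ⟩
        refine ⟨U, hU, fun g hg => ?_⟩
        rw [Matrix.mulVec_smul, hβ g hg]
    have h1 := tenK (K := K) _ _ (algE T.Q c d a D) B t hU (fun J => by
      rw [hB]
      refine ⟨U₀ ⊓ ⨅ L, U₁ L, ?_, fun g hg => ?_⟩
      · have h2 : ((U₀ ⊓ ⨅ L, U₁ L : Subgroup Γ) : Set Γ) = (U₀ : Set Γ) ∩ ⋂ L, (U₁ L : Set Γ) := by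
          rw [Subgroup.coe_inf, Subgroup.coe_iInf]
        rw [h2]
        exact hU₀.inter (isOpen_iInter_of_finite hU₁)
      · funext L
        rw [← hg₀ g hg.1 J L]
        exact congrFun (hg₁ L g ((Subgroup.mem_iInf.1 hg.2) L)) J)
    refine Submodule.span_mono ?_ h1
    rintro g ⟨α, hα, β, hβ, rfl⟩
    rw [hB] at hβ
    exact ⟨α, hα, β, hβ, rfl⟩
  · intro ht
    clear hta hsym htr
    unfold GW.tateW at ht
    have hpull : ∀ (P : Matrix (Fin s ⊕ Fin n) (Fin s ⊕ Fin n) K)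
        (α β : (Fin m → Fin s ⊕ Fin n) → K) (x : K),
        pull P (fun J => α J + β J) = (fun J => pull P α J + pull P β J) ∧
        pull P (fun J => x * α J) = fun J => x * pull P α J := by
      intro P α β x
      constructor
      · funext J
        simp only [pull, mul_add, Finset.sum_add_distrib]
      · funext J
        simp only [pull, Finset.mul_sum]
        refine Finset.sum_congr rfl fun N _ => ?_
        ring
    induction ht using Submodule.span_induction with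
    | mem g h =>
      obtain ⟨α, hα, v, ⟨V, hV, hβ⟩, rfl⟩ := h
      obtain ⟨U, hU, hα'⟩ := tate_algE hT d a D α hα
      refine ⟨U ⊓ V, hU.inter hV, fun g hg J L => ?_⟩
      have h1 : (fun J => α J * v L) = fun J => v L * α J := by
        funext J
        ring
      have h2 : (fun L => α J * v L) = α J • v := rfl
      simp only
      rw [h1, (hpull _ α α (v L)).2, hα' g hg.1, h2, Matrix.mulVec_smul, hβ g hg.2,
        Pi.smul_apply, smul_eq_mul]
      ring
    | zero =>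
      refine ⟨⊤, isOpen_univ, fun g _ J L => ?_⟩
      simp [pull]
    | add f g _ _ hf hg =>
      obtain ⟨U, hU, h1⟩ := hf
      obtain ⟨V, hV, h2⟩ := hg
      refine ⟨U ⊓ V, hU.inter hV, fun g' hg' J L => ?_⟩
      have h3 := h1 g' hg'.1 J L
      have h4 := h2 g' hg'.2 J L
      have h5 := congrFun (hpull (T.ρS s g') (fun J => f J L) (fun J => g J L) 0).1 J
      simp only [Pi.add_apply] at h5 ⊢
      rw [h5, h3, h4, ← Pi.add_apply, ← Matrix.mulVec_add]
    | smul x f _ hf =>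
      obtain ⟨U, hU, h1⟩ := hf
      refine ⟨U, hU, fun g hg J L => ?_⟩
      have h3 := h1 g hg J L
      have h5 := congrFun (hpull (T.ρS s g) (fun J => f J L) (fun J => f J L) x).2 J
      simp only [Pi.smul_apply, smul_eq_mul] at h5 ⊢
      rw [h5, h3]
      rw [Matrix.mulVec_smul, Pi.smul_apply, smul_eq_mul]

end

end Pool.Agent.W547.GAW
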